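import Mathlib
import Pool.Agent.Y920.HN.Stm

/-! Project HN (helper920, MP_092965_lc): closed subgroups of countable products of locally finite
discrete groups are amenable at 1. -/

set_option autoImplicit false

open MeasureTheory Filter Topology

namespace Pool.Agent.Y246.HN

open Pool.Agent.Y920.HN

section

variable {Q : ℕ → Type} [∀ n, Group (Q n)] [∀ n, TopologicalSpace (Q n)]
  [∀ n, DiscreteTopology (Q n)] [∀ n, Countable (Q n)]

/-- a compact subgroup of a closed subgroup -/
def LL (H : Subgroup (∀ n, Q n)) (D : ∀ n, Subgroup (Q n)) : Subgroup H where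
  carrier := {x | ∀ n, (x : ∀ n, Q n) n ∈ D n}
  mul_mem' := fun ha hb n => (D n).mul_mem (ha n) (hb n)
  one_mem' := fun n => (D n).one_mem
  inv_mem' := fun ha n => (D n).inv_mem (ha n)

theorem isCompact_LL (H : Subgroup (∀ n, Q n)) (hH : IsClosed (H : Set (∀ n, Q n)))
    (D : ∀ n, Subgroup (Q n)) (hD : ∀ n, Finite (D n)) : IsCompact (LL H D : Set H) := by
  have h1 : IsCompact (Set.pi Set.univ fun n => (D n : Set (Q n))) :=
    isCompact_univ_pi fun n => (Set.toFinite (D n : Set (Q n))).isCompact
  have h2 : (LL H D : Set H) = Subtype.val ⁻¹' (Set.pi Set.univ fun n => (D n : Set (Q n))) := by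
    ext x
    simp only [Set.mem_preimage, Set.mem_pi, Set.mem_univ, true_implies, SetLike.mem_coe]
    rfl
  rw [h2]
  exact hH.isClosedEmbedding_subtypeVal.isCompact_preimage h1

/-- A probability measure which is right invariant under a product of finite subgroups. -/
theorem exists_invariant (H : Subgroup (∀ n, Q n)) [MeasurableSpace H] [BorelSpace H]
    (hH : IsClosed (H : Set (∀ n, Q n))) (D : ∀ n, Subgroup (Q n)) (hD : ∀ n, Finite (D n)) :
    ∃ ν : Measure H, IsProbabilityMeasure ν ∧
    ∀ y : H, (∀ n, (y : ∀ n, Q n) n ∈ D n) → ∀ K : Set H, MeasurableSet K →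
      ν {x | x * y ∈ K} = ν K := by
  have hcomp : CompactSpace (LL H D) := isCompact_iff_compactSpace.1 (isCompact_LL H hH D hD)
  let L : Type := LL H D
  let _ : MeasurableSpace L := borel L
  have _ : BorelSpace L := ⟨rfl⟩
  let lam : Measure L := Measure.haarMeasure ⊤
  have hlam : IsProbabilityMeasure lam :=
    ⟨Measure.haarMeasure_self (K₀ := (⊤ : TopologicalSpace.PositiveCompacts L))⟩
  let j : L → H := fun l => (l.1)⁻¹
  have hj : Continuous j := continuous_subtype_val.inv
  refine ⟨lam.map j, Measure.isProbabilityMeasure_map hj.measurable.aemeasurable,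
    fun y hy K hK => ?_⟩
  have hK' : MeasurableSet {x : H | x * y ∈ K} :=
    (continuous_mul_const y).measurable hK
  rw [Measure.map_apply hj.measurable hK', Measure.map_apply hj.measurable hK]
  let y' : L := ⟨y, hy⟩
  have : j ⁻¹' {x : H | x * y ∈ K} = (fun l : L => y'⁻¹ * l) ⁻¹' (j ⁻¹' K) := by
    ext l
    have : j l * y = j (y'⁻¹ * l) := by
      change (l.1)⁻¹ * y = (y⁻¹ * l.1)⁻¹
      rw [mul_inv_rev, inv_inv]
    simp only [Set.mem_preimage, Set.mem_ofPred_eq, this]
  rw [this, measure_preimage_mul]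

/-- Compact sets have finite projections. -/
theorem finite_proj (H : Subgroup (∀ n, Q n)) {K : Set H} (hK : IsCompact K) (n : ℕ) :
    ((fun x : H => (x : ∀ n, Q n) n) '' K).Finite :=
  (hK.image ((continuous_apply n).comp continuous_subtype_val)).finite_of_discrete

end

theorem t_AMEN : S_AMEN := by
  intro Q _ _ _ _ H _ _ hH hLF μ hμ hsupp
  have hpol : PolishSpace H := hH.polishSpace
  -- compact sets close to `1` of positive measure
  have h1 : ∀ n, ∃ K : Set H, IsCompact K ∧ IsClosed K ∧ 0 < μ n K ∧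
      ∀ x ∈ K, ∀ k < n, (x : ∀ n, Q n) k = 1 := by
    intro n
    set U : Set H := {x | ∀ k < n, (x : ∀ n, Q n) k = 1} with hU
    have hUo : IsOpen U := by
      have : U = ⋂ k ∈ Finset.range n, (fun x : H => (x : ∀ n, Q n) k) ⁻¹' {1} := by
        ext x; simp [hU]
      rw [this]
      exact isOpen_biInter_finset fun k _ => (isOpen_discrete _).preimage
        ((continuous_apply k).comp continuous_subtype_val)
    have hU1 : U ∈ 𝓝 (1 : H) := hUo.mem_nhds fun k _ => rfl
    have hreg := innerRegular_isCompact_isClosed_measurableSet_of_finite (μ n)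
    obtain ⟨K, hKU, ⟨hK, hK'⟩, hpos⟩ := hreg hUo.measurableSet 0 (hsupp n U hU1)
    exact ⟨K, hK, hK', hpos, hKU⟩
  choose K hKc hKcl hKpos hK1 using h1
  -- finite subgroups containing all the coordinates
  have h2 : ∀ k, ∃ D : Subgroup (Q k), Finite D ∧ ∀ n ≤ k, ∀ x ∈ K n, (x : ∀ n, Q n) k ∈ D := by
    intro k
    have hfin : (⋃ n ∈ Finset.range (k + 1), (fun x : H => (x : ∀ n, Q n) k) '' (K n)).Finite :=
      Set.Finite.biUnion (Finset.finite_toSet _) fun n _ => finite_proj H (hKc n) k
    refine ⟨Subgroup.closure _, hLF k _ hfin, fun n hn x hx => Subgroup.subset_closure ?_⟩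
    simp only [Set.mem_iUnion]
    exact ⟨n, Finset.mem_range.2 (by omega), x, hx, rfl⟩
  choose D hD hd using h2
  have hKd : ∀ n, ∀ x ∈ K n, ∀ k, (x : ∀ n, Q n) k ∈ D k := by
    intro n x hx k
    rcases Nat.lt_or_ge k n with h | h
    · rw [hK1 n x hx k h]
      exact one_mem _
    · exact hd k n h x hx
  obtain ⟨ν₀, hν₀, hinv⟩ := exists_invariant H hH D hD
  refine ⟨fun n => (μ n (K n))⁻¹ • (μ n).restrict (K n), ν₀, fun n => ⟨?_⟩, hν₀, fun n => ?_,
    fun C hC => ?_⟩
  · have := hμ n
    rw [Measure.smul_apply, Measure.restrict_apply_univ, smul_eq_mul]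
    exact ENNReal.inv_mul_cancel (hKpos n).ne' (measure_ne_top _ _)
  · exact (Measure.smul_absolutelyContinuous).trans Measure.absolutelyContinuous_restrict
  · have hC' : MeasurableSet {p : H × H | p.1 * p.2 ∈ C} :=
      continuous_mul.measurable hC.measurableSet
    have hn : ∀ n, (ν₀.prod ((μ n (K n))⁻¹ • (μ n).restrict (K n))) {p : H × H | p.1 * p.2 ∈ C}
        = ν₀ C := by
      intro n
      have := hμ n
      have hp : IsProbabilityMeasure ((μ n (K n))⁻¹ • (μ n).restrict (K n)) := ⟨by
        rw [Measure.smul_apply, Measure.restrict_apply_univ, smul_eq_mul]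
        exact ENNReal.inv_mul_cancel (hKpos n).ne' (measure_ne_top _ _)⟩
      rw [Measure.prod_apply_symm hC']
      have hae : ∀ᵐ y ∂((μ n (K n))⁻¹ • (μ n).restrict (K n)),
          ν₀ ((fun x => (x, y)) ⁻¹' {p : H × H | p.1 * p.2 ∈ C}) = ν₀ C := by
        refine Measure.smul_absolutelyContinuous.ae_le ?_
        filter_upwards [ae_restrict_mem (hKcl n).measurableSet] with y hy
        exact hinv y (hKd n y hy) C hC.measurableSet
      rw [lintegral_congr_ae hae, lintegral_const, measure_univ, mul_one]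
    simp only [hn]
    exact tendsto_const_nhds

end Pool.Agent.Y246.HN
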